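import Pool.Agent.MWGX.StmtsA

/-!
# Squad MWGX (problem MP_23468a_al), row PN1: the first pentagon
-/

set_option autoImplicit false

namespace Pool.Agent.MWGX.H92

open Pool.Agent.Helper14_MV Pool.Agent.Helper2_MV
open Pool.Agent.MWK (pre)
open Pool.Agent.MWF (gaml)
open Pool.Agent.MWGN (nn)
open Pool.Agent.MWGQ (pw Gn E0 A0 P0)
open Pool.Agent.MWGR (X It Kaba F1 Dm Ec Es Ea Al0 Rh FE)

theorem lb_of {δ : ℕ} {w w' : List ℕ} (h1 : nn w 0 1 ≡ nn w' 0 1 [MOD δ])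
    (h2 : nn w 0 2 ≡ nn w' 0 2 [MOD δ]) (h : Lb δ w) : Lb δ w' :=
  (h2.symm.trans h).trans (h1.add_right 1)

/-- exchanges keep the class `Kc` -/
theorem kc_ex (exs : ExsStmt) (exl : ExlStmt) {n c δ : ℕ} (hn : 1 ≤ n) (hδ : δ ∣ n)
    {p Z A B F G H w w' : List ℕ} (hx : Ex n c p Z A B F G H w w') (hG : Gd A G H w) :
    (KK w ∧ Ab w ∧ Lb δ w) ↔ (KK w' ∧ Ab w' ∧ Lb δ w') := by
  obtain ⟨ox, ob, _⟩ := exs n c p Z A B F G H w w' hn hx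
  have hl : KK w → nn w 0 1 ≡ nn w' 0 1 [MOD δ] ∧ nn w 0 2 ≡ nn w' 0 2 [MOD δ] := fun k =>
    ⟨(exl n c p Z A B F G H w w' hn hx hG 0 1 3 k.s3 (by norm_num) (by norm_num) k.a3
      k.x3).of_dvd hδ,
     (exl n c p Z A B F G H w w' hn hx hG 0 2 3 k.s3 (by norm_num) (by norm_num) k.b3
      k.x3).of_dvd hδ⟩
  constructor
  · rintro ⟨k, a, l⟩
    exact ⟨ox.kk k, (ob.ab k).1 a, lb_of (hl k).1 (hl k).2 l⟩
  · rintro ⟨k', a, l⟩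
    have k := ox.symm.kk k'
    exact ⟨k, (ob.ab k).2 a, lb_of (hl k).1.symm (hl k).2.symm l⟩

theorem no_lb {n δ a b : ℕ} (hδ : δ ∣ n) (h1 : ¬ δ ∣ 1) (h : b ≡ a [MOD n])
    (hl : b ≡ a + 1 [MOD δ]) : False := by
  have h2 := (h.of_dvd hδ).symm.trans hl
  have h3 : 0 ≡ 1 [MOD δ] := Nat.ModEq.add_left_cancel' a (by simpa using h2)
  exact h1 ((Nat.modEq_zero_iff_dvd).1 h3.symm)

theorem pn1 (dgr : DgrStmt) (oxv : OxvStmt) (lbw : LbwStmt) (eav : EavStmt) (eak : EakStmt)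
    (abv : AbvStmt) (f1k : F1kStmt) (exs : ExsStmt) (exl : ExlStmt) (exo : ExoStmt)
    (dmi : DmiStmt) (skk : SkkStmt) (ei1 : Ei1Stmt) : Pn1Stmt := by
  intro n β hM hG hE hIt hF
  by_contra hcon
  rw [not_or] at hcon
  obtain ⟨hD, hK⟩ := hcon
  have hn : 1 ≤ n := hG.pos
  obtain ⟨δ, hδ⟩ := dgr n β hn hIt
  have hδ1 : ¬ δ ∣ 1 := fun h => hD ((hδ.iff 1).2 h)
  have hF1 : ¬ F1 n (RR β) := fun h => hK (f1k n β hG h hF)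
  have hb : β ≤ gaml (fun w => KK w ∧ Ab w ∧ nn w 1 2 = 1) := MWF.le_gaml (by
    rintro w w' h ⟨k, a, o⟩
    have k' := (oxv n β hG hE w w' h).1.kk k
    have a' := abv n β hG hE hF1 w w' h k a
    refine ⟨k', a', ?_⟩
    by_contra ho
    have hle : nn w 0 1 ≤ nn w 0 2 :=
      Pool.Agent.MWK.count_pre_mono (Pool.Agent.MWK.mem_pre_of_count o) 0
    refine hK (eak n β _ (eav n β δ hG hIt hδ w w' h k k' (Or.inr ⟨a, a'⟩) o ho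
      (nn w 0 2 - nn w 0 1) ?_))
    rw [Nat.add_sub_cancel' hle])
  have hc : β ≤ gaml (fun w => KK w ∧ Ab w ∧ Lb δ w) := MWF.le_gaml (by
    rintro w w' h ⟨k, a, l⟩
    exact ⟨(oxv n β hG hE w w' h).1.kk k, abv n β hG hE hF1 w w' h k a, lb_of
      (lbw n β δ hG hE hIt hδ w w' h 0 1 3 k.s3 k.a2 k.a3 k.x2 k.x3)
      (lbw n β δ hG hE hIt hδ w w' h 0 2 3 k.s3 k.b2 k.b3 k.x2 k.x3) l⟩)
  have hσ : Dm n 1 (RR (gaml (fun w => KK w ∧ Ab w ∧ nn w 1 2 = 1))) := MWF.RR_gaml (by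
    intro f p q
    rw [flat_dl, flat_dr]
    obtain ⟨ox, ob, od, _⟩ := dmi n 1 p (f 0) (f 1) (f 2) q _ _ hn rfl rfl
    constructor
    · rintro ⟨k, a, o⟩
      exact ⟨ox.kk k, (ob.ab k).1 a,
        (od 1 2 3 k.s3 (by norm_num) (by norm_num) k.a3 k.b3).symm.trans o⟩
    · rintro ⟨k', a, o⟩
      have k := ox.symm.kk k'
      exact ⟨k, (ob.ab k).2 a,
        (od 1 2 3 k.s3 (by norm_num) (by norm_num) k.a3 k.b3).trans o⟩)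
  have hτ : Ea n 1 (RR (gaml (fun w => KK w ∧ Ab w ∧ Lb δ w))) := MWF.RR_gaml (fun f p q =>
    kc_ex exs exl hn hδ.dv (ex_ea n 1 f p q) (Or.inr ⟨f 5, q, rfl⟩))
  have hρ1 : Kaba (RR (gaml (fun w => KK w ∧ Ab w ∧ Lb δ w))) := MWF.RR_gaml (fun f p q =>
    kc_ex exs exl hn hδ.dv (ex_kaba n f p q) (Or.inr ⟨f 4, q, rfl⟩))
  have hρ2 : Kaba (RR (gaml (fun w => (KK w ∧ Ab w ∧ nn w 1 2 = 1) ∧
      (KK w ∧ Ab w ∧ Lb δ w)))) := MWF.RR_gaml (by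
    intro f p q
    have hkc := kc_ex (δ := δ) exs exl hn hδ.dv (ex_kaba n f p q) (Or.inr ⟨f 4, q, rfl⟩)
    have hx := exo n 0 _ _ _ _ _ _ _ _ _ hn (ex_kaba n f p q) 1 2 3
    constructor
    · rintro ⟨⟨k, a, o⟩, hk⟩
      have hk' := hkc.1 hk
      refine ⟨⟨hk'.1, hk'.2.1, ?_⟩, hk'⟩
      by_contra ho
      have h3 := ((hx k.s3 (by norm_num) (by norm_num) k.a3 k.b3).1 o ho).2.2.2 0 (by norm_num)
        k.x3
      rw [Nat.zero_mul, Nat.add_zero] at h3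
      exact no_lb hδ.dv hδ1 h3 hk.2.2
    · rintro ⟨⟨k', a, o⟩, hk'⟩
      have hk := hkc.2 hk'
      have k := hk.1
      refine ⟨⟨hk.1, hk.2.1, ?_⟩, hk⟩
      by_contra ho
      have h3 := ((hx k.s3 (by norm_num) (by norm_num) k.a3 k.b3).2 o ho).2.2.2 0 (by norm_num)
        k.x3
      rw [Nat.zero_mul, Nat.add_zero] at h3
      exact no_lb hδ.dv hδ1 h3 hk'.2.2)
  have hle : β ≤ FIC.sup (FIC.inf (gaml (fun w => (KK w ∧ Ab w ∧ nn w 1 2 = 1) ∧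
      (KK w ∧ Ab w ∧ Lb δ w))) (gaml (fun w => KK w ∧ Ab w ∧ Lb δ w)))
      (gaml (fun w => KK w ∧ Ab w ∧ nn w 1 2 = 1)) :=
    fun a b h => FIC.le_sup_right _ _ _ _ (hb a b h)
  have hIt' : It n (RR (FIC.sup (FIC.inf (gaml (fun w => (KK w ∧ Ab w ∧ nn w 1 2 = 1) ∧
      (KK w ∧ Ab w ∧ Lb δ w))) (gaml (fun w => KK w ∧ Ab w ∧ Lb δ w)))
      (gaml (fun w => KK w ∧ Ab w ∧ nn w 1 2 = 1)))) :=
    fun p w w' q x h => hle _ _ (hIt p w w' q x h)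
  have hEa := ei1 n _ hn hIt' (FIC.le_sup_right _ _ _ _ hσ)
    (FIC.le_sup_left _ _ _ _ ⟨hρ2, hρ1⟩)
  obtain ⟨s1, s2, s3, s4, s5⟩ := skk n δ hn hδ.dv _ _ rfl rfl
  have hfin := pen hM _ _ hb hc hEa hτ ⟨⟨s1, s2, s3⟩, ⟨s1, s2, s4⟩⟩
  have h1 := hfin.1.2.2
  rw [s5] at h1
  exact absurd h1 (by norm_num)

end Pool.Agent.MWGX.H92
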